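import Pool.Agent.Lib.MP_a7fa83_ag.OneY

/-!
# MP_a7fa83_ag : the derivative of a word
-/

namespace MPa7fa83

open PowerSeries Finset

/-- `q d/dq` -/
noncomputable def DD : Derivation ℚ ℚ⟦X⟧ ℚ⟦X⟧ := (X : ℚ⟦X⟧) • PowerSeries.derivative ℚ

lemma DD_apply (f : ℚ⟦X⟧) : DD f = X * PowerSeries.derivative ℚ f := rfl

lemma DD_X_pow (N : ℕ) : DD (X ^ N : ℚ⟦X⟧) = (N : ℚ⟦X⟧) * X ^ N := by
  rcases N with _ | N
  · simp
  · rw [Derivation.leibniz_pow, DD_apply, PowerSeries.derivative_X]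
    simp only [Nat.add_sub_cancel, smul_eq_mul, nsmul_eq_mul, mul_one]
    rw [pow_succ]

lemma DD_ys (N : ℕ) (hN : 1 ≤ N) : DD (ys N) = (N : ℚ⟦X⟧) * (ys N * (ys N - 1)) := by
  have h := ys_mul N hN
  have h1 := congrArg DD h
  rw [Derivation.leibniz, map_sub, DD_X_pow, Derivation.map_one_eq_zero] at h1
  simp only [smul_eq_mul] at h1
  have h2 := ys_sub_one N hN
  rw [h2]
  linear_combination (ys N) * h1 - (DD (ys N)) * h

lemma DD_hf : DD hf = 0 := by
  unfold hf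
  rw [DD_apply, PowerSeries.derivative_C, mul_zero]

lemma DD_xs (N : ℕ) (hN : 1 ≤ N) : DD (xs N) = (N : ℚ⟦X⟧) * (xs N ^ 2 - hf ^ 2) := by
  unfold xs
  rw [map_sub, DD_ys N hN, DD_hf, sub_zero]
  have h2 := two_hf
  linear_combination ((N : ℚ⟦X⟧) * ys N) * h2

lemma DD_fl (j N : ℕ) (hN : 1 ≤ N) : DD (fl j N) = (N : ℚ⟦X⟧) * dfs j N := by
  rw [dfs_apply]
  unfold fl dfl
  rw [Derivation.leibniz, map_sub, Derivation.leibniz_pow, Derivation.leibniz_pow,
    Derivation.leibniz_pow, DD_xs N hN, DD_hf]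
  simp only [smul_eq_mul, nsmul_eq_mul]
  push_cast
  ring

/-- pointwise derivative -/
noncomputable def Ds (F : Sq) : Sq := fun B => DD (F B)

lemma Ds_S (j : ℕ) (F : Sq) :
    Ds (S (fl j * F)) = S (fl j * Ds F) + S (dfs j * (F * (S 1 + 1))) := by
  have h1 : Ds (S (fl j * F)) = S (fun N => DD (fl j N * F N)) := by
    funext B
    unfold Ds S
    rw [map_sum]
    rfl
  rw [h1, ← S_add]
  apply S_congr
  intro N hN
  have hn : (S 1 + 1) N = (N : ℚ⟦X⟧) := by
    simp only [S, Pi.add_apply, Pi.one_apply, Finset.sum_const, Nat.card_Ico, nsmul_eq_mul,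
      mul_one]
    have : (N : ℚ⟦X⟧) = ((N - 1 : ℕ) : ℚ⟦X⟧) + 1 := by
      have : N = (N - 1) + 1 := by omega
      conv_lhs => rw [this]
      push_cast; ring
    rw [this]
  simp only [Pi.add_apply, Pi.mul_apply] at hn ⊢
  rw [hn, Derivation.leibniz, DD_fl j N hN]
  simp only [smul_eq_mul, Ds]
  ring

/-- the sum `D + K_φ` -/
noncomputable def Phi (F : Sq) : Sq := Ds F + K (fl 0) F

lemma S_smul_dfs (j : ℕ) (F : Sq) : S (dfs j * F)
    = ((j : ℚ) + 2) • S (fl (j + 1) * F) - ((j : ℚ) / 4) • S (fl (j - 1) * F) := by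
  unfold dfs
  rw [sub_mul, smul_mul_assoc, smul_mul_assoc, S_sub, S_smul, S_smul]

lemma S_dfs_mem {w w' j : ℕ} {F : Sq} (hF : F ∈ W w) (h : ∃ k, w + (j + 3) + 2 * k = w') :
    S (dfs j * F) ∈ W w' := by
  rw [S_smul_dfs]
  obtain ⟨k, hk⟩ := h
  refine sub_mem (Submodule.smul_mem _ _ (W_S hF ⟨k, by omega⟩)) ?_
  rcases j with _ | j
  · simp
  · refine Submodule.smul_mem _ _ (W_S hF ⟨k + 1, ?_⟩)
    simp only [Nat.add_sub_cancel]; omega

lemma Q1_mem {w w' j : ℕ} {F : Sq} (hF : F ∈ W w) (h : ∃ k, w + (j + 4) + 2 * k = w') :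
    S (Q1 j F) ∈ W w' := by
  have e : S (Q1 j F) = ∑ a ∈ range j, S (dfs a * S (fl (j - 1 - a) * F)) := by
    unfold Q1
    induction (range j) using Finset.induction_on with
    | empty => simp [S_zero]
    | insert a s ha ih => rw [Finset.sum_insert ha, Finset.sum_insert ha, S_add, ih]
  rw [e]
  obtain ⟨k, hk⟩ := h
  refine Submodule.sum_mem _ (fun a ha => ?_)
  have ha' := Finset.mem_range.1 ha
  have h1 : S (fl (j - 1 - a) * F) ∈ W (w + (j - 1 - a + 2)) := W_S hF ⟨0, rfl⟩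
  exact S_dfs_mem h1 ⟨k, by omega⟩

/-- `Y = S y + 1/2` -/
noncomputable def Yy : Sq := S yq + (1 / 2 : ℚ) • (1 : Sq)

lemma two_Yy : 2 * Yy = 2 * S xs + S 1 + 1 := by
  unfold Yy yq
  rw [S_add, S_smul]
  funext B
  simp only [Pi.mul_apply, Pi.add_apply, Pi.smul_apply, Pi.ofNat_apply,
    PowerSeries.smul_eq_C_mul]
  rw [show (C (1/2 : ℚ)) = hf from rfl]
  have h2 := two_hf
  linear_combination (S 1 B + 1) * h2

lemma Phi_step (j : ℕ) (F : Sq) : Phi (S (fl j * F)) =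
    S (fl j * Phi F) + 2 * S (dfs j * (Yy * F)) + (S (dfs j * E1 F) + S (fl 0 * S (fl j * F))
      + S (Q1 j F)) := by
  unfold Phi
  rw [Ds_S, K_S, K_fl0_fl]
  have e1 : fl j * (Ds F + K (fl 0) F) = fl j * Ds F + fl j * K (fl 0) F := by ring
  have e2 : 2 * S (dfs j * (Yy * F)) = S (dfs j * (2 * Yy * F)) := by
    rw [← S_two_mul]; congr 1; ring
  have e3 : dfs j * (2 * Yy * F) = dfs j * (F * (S 1 + 1)) + 2 * (dfs j * (F * S xs)) := by
    rw [two_Yy]; ring
  have e4 : dfs j * E1 F = dfs j * K xs F + dfs j * S (xs * F) - 2 * (dfs j * (F * S xs)) := by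
    unfold E1; ring
  rw [e1, e2, e3, e4]
  simp only [S_add, S_sub, S_two_mul]
  ring

lemma Phi_mem (l : List ℕ) : ∀ p : List ℕ, op p (Phi (wseq l)) ∈ V (wt p + wt l + 2) := by
  induction l with
  | nil =>
    intro p
    have e : Phi (wseq []) = wseq [0] := by
      unfold Phi
      rw [wseq_nil, K_one_right, wseq_cons, wseq_nil, mul_one]
      have : Ds 1 = 0 := by
        funext B
        simp [Ds]
      rw [this, zero_add]
    rw [e]
    exact W_le_V (W_op (wseq_mem ⟨0, rfl⟩) ⟨0, by simp; omega⟩)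
  | cons j v ih =>
    intro p
    rw [wseq_cons, Phi_step, op_add, op_add, op_add, op_add, op_two_mul]
    have h1 := ih (p ++ [j])
    rw [op_append] at h1
    have hb : ∀ i : ℕ, op p (S (fl i * (Yy * wseq v))) ∈ V (wt p + (i + 2) + wt v + 1) := by
      intro i
      have h2 := beta_word v (p ++ [i]) (by simp)
      rw [op_append] at h2
      refine V_mono h2 ⟨0, ?_⟩
      simp only [wt_append, wt_cons, wt_nil]
    have h2 : op p (S (dfs j * (Yy * wseq v))) ∈ V (wt p + wt (j :: v) + 2) := by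
      rw [S_smul_dfs, op_sub, op_smul, op_smul]
      refine sub_mem (Submodule.smul_mem _ _ (V_mono (hb (j + 1)) ⟨0, ?_⟩)) ?_
      · simp only [wt_cons]; omega
      · rcases j with _ | j
        · simp
        · refine Submodule.smul_mem _ _ (V_mono (hb (j + 1 - 1)) ⟨1, ?_⟩)
          simp only [wt_cons, Nat.add_sub_cancel]; omega
    have hv : wseq v ∈ W (wt v) := wseq_mem ⟨0, rfl⟩
    have h3 : op p (S (dfs j * E1 (wseq v))) ∈ V (wt p + wt (j :: v) + 2) :=
      W_le_V (W_op (S_dfs_mem (E1_mem hv) ⟨0, rfl⟩) ⟨0, by simp only [wt_cons]; omega⟩)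
    have h4 : op p (S (fl 0 * S (fl j * wseq v))) ∈ V (wt p + wt (j :: v) + 2) :=
      W_le_V (W_op (W_S (W_S hv ⟨0, rfl⟩) ⟨0, rfl⟩) ⟨0, by simp only [wt_cons]; omega⟩)
    have h5 : op p (S (Q1 j (wseq v))) ∈ V (wt p + wt (j :: v) + 2) :=
      W_le_V (W_op (Q1_mem hv ⟨0, rfl⟩) ⟨0, by simp only [wt_cons]; omega⟩)
    refine add_mem (add_mem (V_mono h1 ⟨0, ?_⟩) ?_) (add_mem (add_mem h3 h4) h5)
    · simp only [wt_append, wt_cons, wt_nil]; omega
    · rw [two_mul]; exact add_mem h2 h2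

/-- The derivative of a word of weight `w` is in the span of words of weight `w + 2`
(same parity), up to null sequences. -/
lemma Ds_word (l : List ℕ) : Ds (wseq l) ∈ V (wt l + 2) := by
  have h1 := Phi_mem l []
  have h2 : K (fl 0) (wseq l) ∈ V (wt l + 2) := by
    have h3 := conv_null (fl_dvd 0) (Cau_wseq l)
    have h4 : S (fl 0) * wseq l ∈ W (wt l + 2) := by
      have : S (fl 0) = wseq [0] := by rw [wseq_cons, wseq_nil, mul_one]
      rw [this, mul_comm]
      exact W_mul (wseq_mem ⟨0, rfl⟩) (wseq_mem ⟨0, rfl⟩)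
    have : K (fl 0) (wseq l) = S (fl 0) * wseq l - (S (fl 0) * wseq l - K (fl 0) (wseq l)) := by
      ring
    rw [this]
    exact sub_mem (W_le_V h4) (ZZ_le_V h3)
  have : Ds (wseq l) = op [] (Phi (wseq l)) - K (fl 0) (wseq l) := by
    unfold op Phi; ring
  rw [this]
  refine sub_mem (V_mono h1 ⟨0, by simp⟩) h2

lemma Ds_mem {w : ℕ} {F : Sq} (hF : F ∈ W w) : Ds F ∈ V (w + 2) := by
  unfold W at hF
  induction hF using Submodule.span_induction with
  | mem x hx =>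
    obtain ⟨l, ⟨k, hk⟩, rfl⟩ := hx
    exact V_mono (Ds_word l) ⟨k, by omega⟩
  | zero =>
    have : Ds 0 = 0 := by funext B; simp [Ds]
    rw [this]; exact zero_mem _
  | add x y _ _ hx hy =>
    have : Ds (x + y) = Ds x + Ds y := by funext B; simp [Ds]
    rw [this]; exact add_mem hx hy
  | smul c x _ hx =>
    have : Ds (c • x) = c • Ds x := by funext B; simp [Ds]
    rw [this]; exact Submodule.smul_mem _ _ hx

end MPa7fa83
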