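import Pool.Agent.Lib.MP_a7fa83_ag.Defs
import Pool.Agent.Lib.MP_a7fa83_ag.Deriv

/-!
# MP_a7fa83_ag : passage between the letters `fl j` and the letters of the problem
-/

namespace MPa7fa83

open PowerSeries Finset

lemma Xys (n : ℕ) (hn : 1 ≤ n) : X ^ n * ys n = ys n - 1 := (ys_sub_one n hn).symm

lemma letter_even (m n : ℕ) (hn : 1 ≤ n) : letter (2 * m) n = fl 0 n ^ m := by
  unfold letter pnum
  have h1 : (1 - X ^ n : ℚ⟦X⟧)⁻¹ = ys n := rfl
  rw [if_pos (by omega), h1, show 2 * m / 2 = m by omega, pow_mul (ys n) 2 m, ← mul_pow, fl_zero]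
  congr 1
  have h2 := Xys n hn
  have h3 := two_hf
  unfold xs
  linear_combination (ys n) * h2 + (ys n) * h3

lemma letter_odd (m n : ℕ) (hn : 1 ≤ n) :
    letter (2 * m + 1) n = 2 * (fl 0 n ^ m * xs n) := by
  have h0 := letter_even m n hn
  unfold letter pnum at h0 ⊢
  have h1 : (1 - X ^ n : ℚ⟦X⟧)⁻¹ = ys n := rfl
  rw [h1, if_pos (by omega), show 2 * m / 2 = m by omega] at h0
  rw [if_neg (by omega), h1, show (2 * m + 1 - 1) / 2 = m by omega, pow_succ (ys n)]
  have h2 := Xys n hn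
  have h3 := two_hf
  unfold xs
  linear_combination ((1 + X ^ n) * ys n) * h0 + (fl 0 n ^ m) * h2 + (fl 0 n ^ m) * h3

lemma S_pow_mem (m : ℕ) : ∀ (j w : ℕ) (F : Sq), F ∈ W w →
    S (fl 0 ^ (m + 1) * xs ^ j * F) ∈ W (w + 2 * (m + 1) + j) := by
  induction m with
  | zero =>
    intro j w F hF
    have : fl 0 ^ (0 + 1) * xs ^ j * F = fl j * F := by
      congr 1
      funext N
      simp only [Pi.mul_apply, Pi.pow_apply, zero_add, pow_one]
      unfold fl
      ring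
    rw [this]
    exact W_S hF ⟨0, by omega⟩
  | succ m ih =>
    intro j w F hF
    have : fl 0 ^ (m + 1 + 1) * xs ^ j * F
        = fl 0 ^ (m + 1) * xs ^ (j + 2) * F - (1 / 4 : ℚ) • (fl 0 ^ (m + 1) * xs ^ j * F) := by
      funext N
      simp only [Pi.mul_apply, Pi.pow_apply, Pi.sub_apply, Pi.smul_apply,
        PowerSeries.smul_eq_C_mul, ← hf_sq]
      rw [pow_succ (fl 0 N) (m + 1)]
      conv_lhs => rw [fl_zero N]
      rw [fl_zero N]
      ring
    rw [this, S_sub, S_smul]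
    refine sub_mem (W_mono (ih (j + 2) w F hF) ⟨0, by omega⟩)
      (Submodule.smul_mem _ _ (W_mono (ih j w F hF) ⟨1, by omega⟩))

/-- the sequence of a letter of the problem -/
lemma S_letter_mem {s w w' : ℕ} (hs : 2 ≤ s) {F : Sq} (hF : F ∈ W w) (h : w + s = w') :
    S (letter s * F) ∈ W w' := by
  rcases Nat.even_or_odd' s with ⟨m, hm | hm⟩
  · obtain ⟨m, rfl⟩ : ∃ m', m = m' + 1 := ⟨m - 1, by omega⟩
    have e : S (letter s * F) = S (fl 0 ^ (m + 1) * xs ^ 0 * F) := by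
      apply S_congr
      intro N hN
      simp only [Pi.mul_apply, Pi.pow_apply, pow_zero, mul_one]
      rw [hm, letter_even _ _ hN]
    rw [e]
    exact W_mono (S_pow_mem m 0 w F hF) ⟨0, by omega⟩
  · obtain ⟨m, rfl⟩ : ∃ m', m = m' + 1 := ⟨m - 1, by omega⟩
    have e : S (letter s * F) = 2 * S (fl 0 ^ (m + 1) * xs ^ 1 * F) := by
      rw [← S_two_mul]
      apply S_congr
      intro N hN
      simp only [Pi.mul_apply, Pi.pow_apply, pow_one, Pi.ofNat_apply]
      rw [hm, letter_odd _ _ hN]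
      ring
    rw [e, two_mul]
    have := W_mono (S_pow_mem m 1 w F hF) (w' := w') ⟨0, by omega⟩
    exact add_mem this this

lemma Ztr_cons (s : ℕ) (l : List ℕ) : Ztr (s :: l) = S (letter s * Ztr l) := by
  funext B; rfl

lemma Ztr_nil : Ztr [] = 1 := by
  funext B; rfl

lemma Ztr_mem (l : List ℕ) (hl : ∀ s ∈ l, 2 ≤ s) : Ztr l ∈ W l.sum := by
  induction l with
  | nil => rw [Ztr_nil]; exact one_mem_W ⟨0, rfl⟩
  | cons s l ih =>
    rw [Ztr_cons]
    exact S_letter_mem (hl s (by simp)) (ih (fun t ht => hl t (by simp [ht])))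
      (by simp; omega)

/-- span of the truncated sums of the problem -/
noncomputable def WZ (w : ℕ) : Submodule ℚ Sq :=
  Submodule.span ℚ {F | ∃ l : List ℕ, (∀ s ∈ l, 2 ≤ s) ∧ (∃ k, l.sum + 2 * k = w) ∧ F = Ztr l}

lemma WZ_mono {w w' : ℕ} {G : Sq} (hG : G ∈ WZ w) (h : ∃ k, w + 2 * k = w') : G ∈ WZ w' := by
  unfold WZ at hG
  induction hG using Submodule.span_induction with
  | mem x hx =>
    obtain ⟨l, hl, ⟨k, hk⟩, rfl⟩ := hx
    obtain ⟨k', hk'⟩ := h
    exact Submodule.subset_span ⟨l, hl, ⟨k + k', by omega⟩, rfl⟩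
  | zero => exact zero_mem _
  | add x y _ _ hx hy => exact add_mem hx hy
  | smul c x _ hx => exact Submodule.smul_mem _ _ hx

lemma WZ_S {w w' s : ℕ} (hs : 2 ≤ s) {G : Sq} (hG : G ∈ WZ w) (h : ∃ k, w + s + 2 * k = w') :
    S (letter s * G) ∈ WZ w' := by
  unfold WZ at hG
  induction hG using Submodule.span_induction with
  | mem x hx =>
    obtain ⟨l, hl, ⟨k, hk⟩, rfl⟩ := hx
    obtain ⟨k', hk'⟩ := h
    rw [← Ztr_cons]
    refine Submodule.subset_span ⟨s :: l, ?_, ⟨k + k', by simp; omega⟩, rfl⟩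
    intro t ht
    rcases List.mem_cons.1 ht with h | h
    · rw [h]; exact hs
    · exact hl t h
  | zero => rw [mul_zero, S_zero]; exact zero_mem _
  | add x y _ _ hx hy => rw [mul_add, S_add]; exact add_mem hx hy
  | smul c x _ hx => rw [mul_smul_comm, S_smul]; exact Submodule.smul_mem _ _ hx

lemma S_pow_memZ (j : ℕ) : ∀ (m w : ℕ) (F : Sq), F ∈ WZ w →
    S (fl 0 ^ (m + 1) * xs ^ j * F) ∈ WZ (w + 2 * (m + 1) + j) := by
  induction j using Nat.twoStepInduction with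
  | zero =>
    intro m w F hF
    have e : S (fl 0 ^ (m + 1) * xs ^ 0 * F) = S (letter (2 * (m + 1)) * F) := by
      apply S_congr
      intro N hN
      simp only [Pi.mul_apply, Pi.pow_apply, pow_zero, mul_one]
      rw [letter_even _ _ hN]
    rw [e]
    exact WZ_S (by omega) hF ⟨0, by omega⟩
  | one =>
    intro m w F hF
    have e : S (fl 0 ^ (m + 1) * xs ^ 1 * F)
        = (1 / 2 : ℚ) • S (letter (2 * (m + 1) + 1) * F) := by
      rw [← S_smul]
      apply S_congr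
      intro N hN
      simp only [Pi.mul_apply, Pi.pow_apply, Pi.smul_apply, pow_one, PowerSeries.smul_eq_C_mul]
      rw [letter_odd _ _ hN, show (C (1/2 : ℚ)) = hf from rfl]
      have h2 := two_hf
      linear_combination (-(fl 0 N ^ (m + 1) * xs N * F N)) * h2
    rw [e]
    exact Submodule.smul_mem _ _ (WZ_S (by omega) hF ⟨0, by omega⟩)
  | more j ih1 ih2 =>
    intro m w F hF
    have e : fl 0 ^ (m + 1) * xs ^ (j + 2) * F
        = fl 0 ^ (m + 1 + 1) * xs ^ j * F + (1 / 4 : ℚ) • (fl 0 ^ (m + 1) * xs ^ j * F) := by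
      funext N
      simp only [Pi.mul_apply, Pi.pow_apply, Pi.add_apply, Pi.smul_apply,
        PowerSeries.smul_eq_C_mul, ← hf_sq]
      rw [pow_succ (fl 0 N) (m + 1)]
      conv_rhs => rw [fl_zero N]
      rw [fl_zero N]
      ring
    rw [e, S_add, S_smul]
    refine add_mem (WZ_mono (ih1 (m + 1) w F hF) ⟨0, by omega⟩)
      (Submodule.smul_mem _ _ (WZ_mono (ih1 m w F hF) ⟨1, by omega⟩))

lemma wseq_memZ (l : List ℕ) : wseq l ∈ WZ (wt l) := by
  induction l with
  | nil =>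
    rw [wseq_nil, ← Ztr_nil]
    exact Submodule.subset_span ⟨[], by simp, ⟨0, rfl⟩, rfl⟩
  | cons j l ih =>
    rw [wseq_cons]
    have : fl j * wseq l = fl 0 ^ (0 + 1) * xs ^ j * wseq l := by
      congr 1
      funext N
      simp only [Pi.mul_apply, Pi.pow_apply, zero_add, pow_one]
      unfold fl
      ring
    rw [this]
    exact WZ_mono (S_pow_memZ j 0 _ _ ih) ⟨0, by simp only [wt_cons]; omega⟩

lemma W_le_WZ {w : ℕ} {F : Sq} (hF : F ∈ W w) : F ∈ WZ w := by
  unfold W at hF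
  induction hF using Submodule.span_induction with
  | mem x hx =>
    obtain ⟨l, h, rfl⟩ := hx
    exact WZ_mono (wseq_memZ l) h
  | zero => exact zero_mem _
  | add x y _ _ hx hy => exact add_mem hx hy
  | smul c x _ hx => exact Submodule.smul_mem _ _ hx

/-! ## limits -/

/-- the limit of a sequence (coefficientwise) -/
noncomputable def lim : Sq →ₗ[ℚ] ℚ⟦X⟧ where
  toFun F := PowerSeries.mk fun m => coeff m (F (m + 1))
  map_add' F G := by ext m; simp
  map_smul' c F := by ext m; simp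

lemma lim_apply (F : Sq) (m : ℕ) : coeff m (lim F) = coeff m (F (m + 1)) := by
  simp [lim]

lemma lim_Ztr (l : List ℕ) : lim (Ztr l) = Z l := rfl

lemma lim_ZZ {F : Sq} (hF : F ∈ ZZ) : lim F = 0 := by
  ext m
  rw [lim_apply, map_zero]
  exact (PowerSeries.X_pow_dvd_iff.1 (hF (m + 1))) m (Nat.lt_succ_self m)

lemma coeff_DD (f : ℚ⟦X⟧) (m : ℕ) : coeff m (DD f) = (m : ℚ) * coeff m f := by
  rw [DD_apply]
  rcases m with _ | m
  · simp
  · rw [PowerSeries.coeff_succ_X_mul, PowerSeries.coeff_derivative]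
    push_cast; ring

lemma lim_Ds (F : Sq) : lim (Ds F) = DD (lim F) := by
  ext m
  rw [lim_apply, coeff_DD, lim_apply]
  exact coeff_DD _ _

lemma lim_mul {F G : Sq} (hF : Cau F) (hG : Cau G) : lim (F * G) = lim F * lim G := by
  ext m
  rw [lim_apply, PowerSeries.coeff_mul, Pi.mul_apply, PowerSeries.coeff_mul]
  apply Finset.sum_congr rfl
  intro p hp
  have hp' : p.1 + p.2 = m := by simpa using hp
  rw [lim_apply, lim_apply]
  have h1 : ∀ (H : Sq), Cau H → ∀ i ≤ m, coeff i (H (m + 1)) = coeff i (H (i + 1)) := by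
    intro H hH i hi
    have := (PowerSeries.X_pow_dvd_iff.1 (hH (i + 1) (m + 1) (by omega))) i
      (Nat.lt_succ_self i)
    rw [map_sub, sub_eq_zero] at this
    exact this
  rw [h1 F hF p.1 (by omega), h1 G hG p.2 (by omega)]

/-- the span over `ℚ` of the `Z(s)` of weight `w, w-2, ...` -/
noncomputable def QP (w : ℕ) : Submodule ℚ ℚ⟦X⟧ :=
  Submodule.span ℚ {f | ∃ l : List ℕ, (∀ s ∈ l, 2 ≤ s) ∧ (∃ k, l.sum + 2 * k = w) ∧ f = Z l}

lemma lim_WZ {w : ℕ} {F : Sq} (hF : F ∈ WZ w) : lim F ∈ QP w := by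
  unfold WZ at hF
  induction hF using Submodule.span_induction with
  | mem x hx =>
    obtain ⟨l, hl, h, rfl⟩ := hx
    exact Submodule.subset_span ⟨l, hl, h, rfl⟩
  | zero => rw [map_zero]; exact zero_mem _
  | add x y _ _ hx hy => rw [map_add]; exact add_mem hx hy
  | smul c x _ hx => rw [map_smul]; exact Submodule.smul_mem _ _ hx

lemma lim_V {w : ℕ} {F : Sq} (hF : F ∈ V w) : lim F ∈ QP w := by
  obtain ⟨a, ha, b, hb, rfl⟩ := Submodule.mem_sup.1 hF
  rw [map_add, lim_ZZ hb, add_zero]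
  exact lim_WZ (W_le_WZ ha)

/-- the derivative of `Z(s)` -/
lemma DD_Z (l : List ℕ) (hl : ∀ s ∈ l, 2 ≤ s) : DD (Z l) ∈ QP (l.sum + 2) := by
  rw [← lim_Ztr, ← lim_Ds]
  exact lim_V (Ds_mem (Ztr_mem l hl))

/-- products -/
lemma Z_mul (l l' : List ℕ) (hl : ∀ s ∈ l, 2 ≤ s) (hl' : ∀ s ∈ l', 2 ≤ s) :
    Z l * Z l' ∈ QP (l.sum + l'.sum) := by
  rw [← lim_Ztr, ← lim_Ztr, ← lim_mul (Cau_W (Ztr_mem l hl)) (Cau_W (Ztr_mem l' hl'))]
  exact lim_V (W_le_V (W_mul (Ztr_mem l hl) (Ztr_mem l' hl')))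

end MPa7fa83
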