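import Mathlib

/-!
# MP_a7fa83_ag : definitions for the statements

`Z s` is the multiple q-zeta value `Z(s_1,...,s_k)` of the problem file, a power series in `q = X`
over `ℚ`, and `qMZV Λ w`, `qMZVpar Λ w` are the spans with coefficients in a commutative
`ℚ`-algebra `Λ` (for `Λ = ℚ` this is `qMZV_{≤ w}` itself).
-/

namespace MPa7fa83

open PowerSeries

/-- `p_s(q^n)` : `t^(s/2)` for even `s`, `t^((s-1)/2) (1+t)` for odd `s`, at `t = q^n` -/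
noncomputable def pnum (s n : ℕ) : ℚ⟦X⟧ :=
  if s % 2 = 0 then (X ^ n) ^ (s / 2) else (X ^ n) ^ ((s - 1) / 2) * (1 + X ^ n)

/-- `p_s(q^n) / (1-q^n)^s` -/
noncomputable def letter (s n : ℕ) : ℚ⟦X⟧ := pnum s n * ((1 - X ^ n)⁻¹) ^ s

/-- the finite sum over `B > n_1 > n_2 > ... > n_k ≥ 1` -/
noncomputable def Ztr : List ℕ → ℕ → ℚ⟦X⟧
  | [], _ => 1
  | s :: l, B => ∑ n ∈ Finset.Ico 1 B, letter s n * Ztr l n

/-- `Z(s_1,...,s_k)`: the coefficient of `q^m` is that of the finite sum over `n_1 ≤ m`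
(larger `n_1` do not contribute to it if all `s_i ≥ 2`) -/
noncomputable def Z (l : List ℕ) : ℚ⟦X⟧ := PowerSeries.mk fun m => coeff m (Ztr l (m + 1))

/-- the span over `Λ` of the `Z(s)` with all `s_i ≥ 2` and weight `∑ s_i ≤ w` -/
noncomputable def qMZV (Λ : Type*) [CommRing Λ] [Algebra ℚ Λ] (w : ℕ) : Submodule Λ Λ⟦X⟧ :=
  Submodule.span Λ {f | ∃ l : List ℕ, (∀ s ∈ l, 2 ≤ s) ∧ l.sum ≤ w ∧
    f = PowerSeries.map (algebraMap ℚ Λ) (Z l)}

/-- the span over `Λ` of the `Z(s)` with all `s_i ≥ 2`, weight `≤ w` and of the parity of `w` -/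
noncomputable def qMZVpar (Λ : Type*) [CommRing Λ] [Algebra ℚ Λ] (w : ℕ) : Submodule Λ Λ⟦X⟧ :=
  Submodule.span Λ {f | ∃ l : List ℕ, (∀ s ∈ l, 2 ≤ s) ∧ l.sum ≤ w ∧ l.sum % 2 = w % 2 ∧
    f = PowerSeries.map (algebraMap ℚ Λ) (Z l)}

end MPa7fa83
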