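import Mathlib

/-!
# MP_a7fa83_ag : letters and summation operators

`ys N = 1/(1-q^N)`, `xs N = ys N - 1/2`, `fl j N = (xs N^2 - 1/4) * xs N^j`.
Sequences are functions `ℕ → ℚ⟦X⟧`; `S` is the summation operator, `K κ` the convolution with
`κ`.  The identities (I0) and (I1) are proved for them.
-/

namespace MPa7fa83

open PowerSeries Finset

/-- the constant `1/2` -/
noncomputable def hf : ℚ⟦X⟧ := C (1/2 : ℚ)

lemma two_hf : (2 : ℚ⟦X⟧) * hf = 1 := by
  unfold hf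
  rw [show (2 : ℚ⟦X⟧) = C (2 : ℚ) from (map_ofNat C 2).symm, ← map_mul]
  norm_num

/-- `1/(1-q^N)` -/
noncomputable def ys (N : ℕ) : ℚ⟦X⟧ := (1 - X ^ N)⁻¹

lemma ys_mul (N : ℕ) (hN : 1 ≤ N) : ys N * (1 - X ^ N) = 1 := by
  unfold ys
  apply PowerSeries.inv_mul_cancel
  simp [show N ≠ 0 by omega]

/-- `1/(1-q^N) - 1/2` -/
noncomputable def xs (N : ℕ) : ℚ⟦X⟧ := ys N - hf

/-- the letters `(x^2 - 1/4) x^j` -/
noncomputable def fl (j N : ℕ) : ℚ⟦X⟧ := (xs N ^ 2 - hf ^ 2) * xs N ^ j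

lemma ys_rel (M d : ℕ) (hM : 1 ≤ M) (hd : 1 ≤ d) :
    ys M * ys d = ys (M + d) * (ys M + ys d - 1) := by
  have h1 := ys_mul M hM
  have h2 := ys_mul d hd
  have h3 := ys_mul (M + d) (by omega)
  rw [pow_add] at h3
  have key : ys M * ys d * (1 - X ^ M * X ^ d) = ys M + ys d - 1 := by
    linear_combination (ys d) * h1 + (ys M) * h2 - (ys M * (1 - X ^ M)) * h2 - h1
  calc ys M * ys d = ys (M + d) * (ys M * ys d * (1 - X ^ M * X ^ d)) := by
        linear_combination (-(ys M * ys d)) * h3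
    _ = _ := by rw [key]

/-- the basic relation, for `N > M ≥ 1` and `d = N - M`. -/
lemma xs_rel (N M : ℕ) (hM : 1 ≤ M) (hMN : M < N) :
    (xs M - xs N) * xs (N - M) = xs N * xs M - hf ^ 2 := by
  have h := ys_rel M (N - M) hM (by omega)
  rw [show M + (N - M) = N by omega] at h
  have h2 := two_hf
  unfold xs
  linear_combination h + (ys N) * h2

/-- the derived relation -/
lemma xs_rel2 (N M : ℕ) (hM : 1 ≤ M) (hMN : M < N) :
    (xs M - xs N) * (xs (N - M) ^ 2 - hf ^ 2) =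
      (xs N ^ 2 - hf ^ 2) * (xs M + xs (N - M)) := by
  have h := xs_rel N M hM hMN
  linear_combination (xs (N - M) + xs N) * h

/-- complete homogeneous sum -/
noncomputable def gs (j N M : ℕ) : ℚ⟦X⟧ := ∑ a ∈ range j, xs N ^ a * xs M ^ (j - 1 - a)

/-- its derivative in the first variable -/
noncomputable def gs' (j N M : ℕ) : ℚ⟦X⟧ :=
  ∑ a ∈ range j, ((a : ℚ⟦X⟧) * xs N ^ (a - 1)) * xs M ^ (j - 1 - a)

lemma gs_rel (j N M : ℕ) : gs j N M * (xs N - xs M) = xs N ^ j - xs M ^ j := by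
  unfold gs
  exact (Commute.all (xs N) (xs M)).geom_sum₂_mul j

lemma gs_succ (j N M : ℕ) : gs (j + 1) N M = gs j N M * xs M + xs N ^ j := by
  unfold gs
  rw [Finset.sum_range_succ, Finset.sum_mul]
  congr 1
  · apply Finset.sum_congr rfl
    intro a ha
    have : a < j := Finset.mem_range.1 ha
    rw [mul_assoc, ← pow_succ]
    congr 2
    omega
  · simp

lemma gs'_succ (j N M : ℕ) :
    gs' (j + 1) N M = gs' j N M * xs M + (j : ℚ⟦X⟧) * xs N ^ (j - 1) := by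
  unfold gs'
  rw [Finset.sum_range_succ, Finset.sum_mul]
  congr 1
  · apply Finset.sum_congr rfl
    intro a ha
    have : a < j := Finset.mem_range.1 ha
    rw [mul_assoc, mul_assoc, mul_assoc, ← pow_succ]
    congr 3
    omega
  · simp

lemma gs'_rel (j N M : ℕ) :
    gs' j N M * (xs N - xs M) + gs j N M = (j : ℚ⟦X⟧) * xs N ^ (j - 1) := by
  induction j with
  | zero => simp [gs', gs]
  | succ j ih =>
    rw [gs'_succ, gs_succ]
    rcases j with _ | j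
    · simp [gs', gs]
    · simp only [Nat.add_sub_cancel] at ih ⊢
      push_cast at ih ⊢
      linear_combination (xs M) * ih

/-- pointwise form of (I0) -/
lemma fl_rel (j N M : ℕ) (hM : 1 ≤ M) (hMN : M < N) :
    xs (N - M) * fl j M = xs (N - M) * fl j N + xs N * fl j M + fl j N * xs M
      + (xs N ^ 2 - hf ^ 2) * (xs M ^ 2 - hf ^ 2) * gs j N M := by
  have h := xs_rel N M hM hMN
  have g := gs_rel j N M
  unfold fl
  have e1 : xs (N - M) * ((xs M ^ 2 - hf ^ 2) * xs M ^ j)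
      - xs (N - M) * ((xs N ^ 2 - hf ^ 2) * xs N ^ j)
      = (xs N * xs M - hf ^ 2) * ((xs M + xs N) * xs M ^ j + (xs N ^ 2 - hf ^ 2) * gs j N M) := by
    linear_combination ((xs M + xs N) * xs M ^ j + (xs N ^ 2 - hf ^ 2) * gs j N M) * h
      + (xs (N - M) * (xs N ^ 2 - hf ^ 2)) * g
  linear_combination e1 + ((xs N ^ 2 - hf ^ 2) * xs M) * g

/-- the derived letter `(x^2-1/4) d/dx` of `fl j` -/
noncomputable def dfl (j N : ℕ) : ℚ⟦X⟧ :=
  (xs N ^ 2 - hf ^ 2) * (2 * xs N ^ (j + 1) + (j : ℚ⟦X⟧) * xs N ^ (j - 1) * (xs N ^ 2 - hf ^ 2))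

/-- pointwise form of (I1) -/
lemma fl_rel2 (j N M : ℕ) (hM : 1 ≤ M) (hMN : M < N) :
    (xs (N - M) ^ 2 - hf ^ 2) * fl j M = (xs (N - M) ^ 2 - hf ^ 2) * fl j N
      + dfl j N * xs (N - M) + (xs N ^ 2 - hf ^ 2) * fl j M + dfl j N * xs M
      + (xs M ^ 2 - hf ^ 2) * (2 * xs N * (xs N ^ 2 - hf ^ 2) * gs j N M
        + (xs N ^ 2 - hf ^ 2) ^ 2 * gs' j N M) := by
  have h := xs_rel N M hM hMN
  have h2 := xs_rel2 N M hM hMN
  have g := gs_rel j N M
  have g' := gs'_rel j N M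
  have e1 : fl j M - fl j N = (xs M - xs N) * ((xs M + xs N) * xs M ^ j
      + (xs N ^ 2 - hf ^ 2) * gs j N M) := by
    unfold fl
    linear_combination (xs N ^ 2 - hf ^ 2) * g
  have e2 : (xs M + xs N) * xs M ^ j + (xs N ^ 2 - hf ^ 2) * gs j N M - 2 * xs N ^ (j + 1)
      - (j : ℚ⟦X⟧) * xs N ^ (j - 1) * (xs N ^ 2 - hf ^ 2)
      = (xs M - xs N) * (xs M ^ j + 2 * xs N * gs j N M
        + (xs N ^ 2 - hf ^ 2) * gs' j N M) := by
    linear_combination (xs N ^ 2 - hf ^ 2) * g' + (2 * xs N) * g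
  have e3 : (xs M + xs (N - M)) * (xs M - xs N) = xs M ^ 2 - hf ^ 2 := by
    linear_combination h
  unfold dfl
  unfold fl at e1 ⊢
  linear_combination (xs (N - M) ^ 2 - hf ^ 2) * e1
    + ((xs M + xs N) * xs M ^ j + (xs N ^ 2 - hf ^ 2) * gs j N M) * h2
    + ((xs N ^ 2 - hf ^ 2) * (xs M + xs (N - M))) * e2
    + ((xs N ^ 2 - hf ^ 2) * (xs M ^ j + 2 * xs N * gs j N M
        + (xs N ^ 2 - hf ^ 2) * gs' j N M)) * e3

end MPa7fa83
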