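import Pool.Agent.Lib.MP_a7fa83_ag.Seq

/-!
# MP_a7fa83_ag : words, null sequences, Cauchy property
-/

namespace MPa7fa83

open PowerSeries Finset

/-- weight of a word in the letters `fl j` -/
def wt (l : List ℕ) : ℕ := (l.map (fun j => j + 2)).sum

@[simp] lemma wt_nil : wt [] = 0 := rfl
@[simp] lemma wt_cons (j : ℕ) (l : List ℕ) : wt (j :: l) = (j + 2) + wt l := by simp [wt]
@[simp] lemma wt_append (l l' : List ℕ) : wt (l ++ l') = wt l + wt l' := by simp [wt]

/-- nested summation with a tail `H` -/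
noncomputable def op : List ℕ → Sq → Sq
  | [], H => H
  | j :: l, H => S (fl j * op l H)

/-- nested sums -/
noncomputable def wseq (l : List ℕ) : Sq := op l 1

lemma wseq_nil : wseq [] = 1 := rfl
lemma wseq_cons (j : ℕ) (l : List ℕ) : wseq (j :: l) = S (fl j * wseq l) := rfl

lemma op_append (l l' : List ℕ) (H : Sq) : op (l ++ l') H = op l (op l' H) := by
  induction l with
  | nil => rfl
  | cons j l ih => simp [op, ih]

lemma op_add (l : List ℕ) (F G : Sq) : op l (F + G) = op l F + op l G := by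
  induction l with
  | nil => rfl
  | cons j l ih => simp only [op, ih, mul_add, S_add]

lemma op_smul (l : List ℕ) (c : ℚ) (F : Sq) : op l (c • F) = c • op l F := by
  induction l with
  | nil => rfl
  | cons j l ih => simp only [op, ih, mul_smul_comm, S_smul]

lemma op_zero (l : List ℕ) : op l 0 = 0 := by
  induction l with
  | nil => rfl
  | cons j l ih => simp only [op, ih, mul_zero, S_zero]

lemma op_sub (l : List ℕ) (F G : Sq) : op l (F - G) = op l F - op l G := by
  induction l with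
  | nil => rfl
  | cons j l ih => simp only [op, ih, mul_sub, S_sub]

/-- span of the words of weight `w, w-2, w-4, ...` -/
noncomputable def W (w : ℕ) : Submodule ℚ Sq :=
  Submodule.span ℚ {F | ∃ l : List ℕ, (∃ k, wt l + 2 * k = w) ∧ F = wseq l}

lemma wseq_mem {l : List ℕ} {w : ℕ} (h : ∃ k, wt l + 2 * k = w) : wseq l ∈ W w :=
  Submodule.subset_span ⟨l, h, rfl⟩

lemma W_S {w w' j : ℕ} {G : Sq} (hG : G ∈ W w) (h : ∃ k, w + (j + 2) + 2 * k = w') :
    S (fl j * G) ∈ W w' := by
  unfold W at hG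
  induction hG using Submodule.span_induction with
  | mem x hx =>
    obtain ⟨l, ⟨k, hk⟩, rfl⟩ := hx
    obtain ⟨k', hk'⟩ := h
    rw [← wseq_cons]
    exact wseq_mem ⟨k + k', by rw [wt_cons]; omega⟩
  | zero => rw [mul_zero, S_zero]; exact zero_mem _
  | add x y _ _ hx hy => rw [mul_add, S_add]; exact add_mem hx hy
  | smul c x _ hx => rw [mul_smul_comm, S_smul]; exact Submodule.smul_mem _ _ hx

lemma W_mono {w w' : ℕ} {G : Sq} (hG : G ∈ W w) (h : ∃ k, w + 2 * k = w') : G ∈ W w' := by
  unfold W at hG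
  induction hG using Submodule.span_induction with
  | mem x hx =>
    obtain ⟨l, ⟨k, hk⟩, rfl⟩ := hx
    obtain ⟨k', hk'⟩ := h
    exact wseq_mem ⟨k + k', by omega⟩
  | zero => exact zero_mem _
  | add x y _ _ hx hy => exact add_mem hx hy
  | smul c x _ hx => exact Submodule.smul_mem _ _ hx

lemma W_op {w w' : ℕ} {l : List ℕ} {G : Sq} (hG : G ∈ W w) (h : ∃ k, w + wt l + 2 * k = w') :
    op l G ∈ W w' := by
  induction l generalizing w' with
  | nil => exact W_mono hG (by simpa using h)
  | cons j l ih =>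
    obtain ⟨k, hk⟩ := h
    have h1 : op l G ∈ W (w + wt l) := ih ⟨0, by omega⟩
    exact W_S h1 ⟨k, by rw [wt_cons] at hk; omega⟩

lemma one_mem_W {w : ℕ} (h : ∃ k, 2 * k = w) : (1 : Sq) ∈ W w := by
  rw [← wseq_nil]
  exact wseq_mem (by simpa using h)

lemma fl_mul (i j : ℕ) : fl i * fl j = fl (i + j + 2) - (1 / 4 : ℚ) • fl (i + j) := by
  funext N
  simp only [Pi.mul_apply, Pi.sub_apply, Pi.smul_apply, PowerSeries.smul_eq_C_mul, ← hf_sq]
  unfold fl
  ring

lemma xs_mul_fl (j : ℕ) : xs * fl j = fl (j + 1) := by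
  funext N
  simp only [Pi.mul_apply]
  unfold fl
  ring

lemma wseq_mul (l l' : List ℕ) : wseq l * wseq l' ∈ W (wt l + wt l') := by
  induction l generalizing l' with
  | nil => rw [wseq_nil, one_mul]; exact wseq_mem ⟨0, by simp⟩
  | cons i l ih =>
    induction l' with
    | nil => rw [wseq_nil, mul_one]; exact wseq_mem ⟨0, by simp⟩
    | cons j l' ih' =>
      rw [wseq_cons, wseq_cons, S_mul]
      have e1 : fl i * wseq l * S (fl j * wseq l') = fl i * (wseq l * wseq (j :: l')) := by
        rw [wseq_cons, mul_assoc]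
      have e2 : fl j * wseq l' * S (fl i * wseq l) = fl j * (wseq (i :: l) * wseq l') := by
        rw [wseq_cons]; ring
      have e3 : fl i * wseq l * (fl j * wseq l')
          = fl (i + j + 2) * (wseq l * wseq l')
            - (1 / 4 : ℚ) • (fl (i + j) * (wseq l * wseq l')) := by
        rw [← smul_mul_assoc, ← sub_mul, ← fl_mul]; ring
      rw [e1, e2, e3, S_sub, S_smul]
      refine add_mem (add_mem ?_ ?_) (sub_mem ?_ (Submodule.smul_mem _ _ ?_))
      · exact W_S (ih (j :: l')) ⟨0, by simp only [wt_cons]; omega⟩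
      · exact W_S ih' ⟨0, by simp only [wt_cons]; omega⟩
      · exact W_S (ih l') ⟨0, by simp only [wt_cons]; omega⟩
      · exact W_S (ih l') ⟨1, by simp only [wt_cons]; omega⟩

lemma W_mul {a b : ℕ} {F G : Sq} (hF : F ∈ W a) (hG : G ∈ W b) : F * G ∈ W (a + b) := by
  unfold W at hF
  induction hF using Submodule.span_induction with
  | mem x hx =>
    obtain ⟨l, ⟨k, hk⟩, rfl⟩ := hx
    unfold W at hG
    induction hG using Submodule.span_induction with
    | mem y hy =>
      obtain ⟨l', ⟨k', hk'⟩, rfl⟩ := hy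
      exact W_mono (wseq_mul l l') ⟨k + k', by omega⟩
    | zero => rw [mul_zero]; exact zero_mem _
    | add x y _ _ hx hy => rw [mul_add]; exact add_mem hx hy
    | smul c x _ hx => rw [mul_smul_comm]; exact Submodule.smul_mem _ _ hx
  | zero => rw [zero_mul]; exact zero_mem _
  | add x y _ _ hx hy => rw [add_mul]; exact add_mem hx hy
  | smul c x _ hx => rw [smul_mul_assoc]; exact Submodule.smul_mem _ _ hx

/-- null sequences -/
def ZZ : Submodule ℚ Sq where
  carrier := {F | ∀ B, (X : ℚ⟦X⟧) ^ B ∣ F B}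
  add_mem' := fun {a b} ha hb B => dvd_add (ha B) (hb B)
  zero_mem' := fun B => dvd_zero _
  smul_mem' := fun c x hx B => by
    rw [Pi.smul_apply, PowerSeries.smul_eq_C_mul]
    exact Dvd.dvd.mul_left (hx B) _

lemma ZZ_mul {F G : Sq} (hG : G ∈ ZZ) : F * G ∈ ZZ := fun B => Dvd.dvd.mul_left (hG B) _

/-- words modulo null sequences -/
noncomputable def V (w : ℕ) : Submodule ℚ Sq := W w ⊔ ZZ

lemma W_le_V {w : ℕ} {F : Sq} (h : F ∈ W w) : F ∈ V w := Submodule.mem_sup_left h
lemma ZZ_le_V {w : ℕ} {F : Sq} (h : F ∈ ZZ) : F ∈ V w := Submodule.mem_sup_right h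

lemma V_mono {w w' : ℕ} {G : Sq} (hG : G ∈ V w) (h : ∃ k, w + 2 * k = w') : G ∈ V w' := by
  obtain ⟨a, ha, b, hb, rfl⟩ := Submodule.mem_sup.1 hG
  exact add_mem (W_le_V (W_mono ha h)) (ZZ_le_V hb)

lemma V_mul {a b : ℕ} {F G : Sq} (hF : F ∈ W a) (hG : G ∈ V b) : F * G ∈ V (a + b) := by
  obtain ⟨c, hc, d, hd, rfl⟩ := Submodule.mem_sup.1 hG
  rw [mul_add]
  exact add_mem (W_le_V (W_mul hF hc)) (ZZ_le_V (ZZ_mul hd))

/-! ## Cauchy property -/

/-- Cauchy sequences (strong form) -/
def Cau (F : Sq) : Prop := ∀ B B', B ≤ B' → (X : ℚ⟦X⟧) ^ B ∣ F B' - F B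

lemma ys_sub_one (N : ℕ) (hN : 1 ≤ N) : ys N - 1 = X ^ N * ys N := by
  linear_combination ys_mul N hN

lemma fl_dvd (j N : ℕ) : (X : ℚ⟦X⟧) ^ N ∣ fl j N := by
  rcases Nat.eq_zero_or_pos N with h | h
  · subst h; simp
  · have h1 := ys_sub_one N h
    have h2 := two_hf
    have : fl j N = X ^ N * (ys N * ys N * xs N ^ j) := by
      unfold fl
      have : xs N ^ 2 - hf ^ 2 = X ^ N * (ys N * ys N) := by
        unfold xs
        linear_combination (ys N) * h1 - (ys N) * h2
      rw [this]; ring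
    rw [this]
    exact dvd_mul_right _ _

/-- `q^N/(1-q^N)` -/
noncomputable def psi : Sq := xs - (1 / 2 : ℚ) • (1 : Sq)

lemma psi_dvd (N : ℕ) : (X : ℚ⟦X⟧) ^ N ∣ psi N := by
  rcases Nat.eq_zero_or_pos N with h | h
  · subst h; simp
  · have h1 := ys_sub_one N h
    have h2 := two_hf
    have : psi N = X ^ N * ys N := by
      unfold psi
      simp only [Pi.sub_apply, Pi.smul_apply, Pi.one_apply, PowerSeries.smul_eq_C_mul, mul_one]
      rw [show (C (1/2 : ℚ)) = hf from rfl]
      unfold xs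
      linear_combination h1 - h2
    rw [this]
    exact dvd_mul_right _ _

lemma Cau_one : Cau 1 := fun B B' _ => by simp

lemma Cau_S (j : ℕ) (G : Sq) : Cau (S (fl j * G)) := by
  intro B B' h
  rcases Nat.eq_zero_or_pos B with h0 | h0
  · subst h0; simp
  · have : S (fl j * G) B' - S (fl j * G) B = ∑ N ∈ Ico B B', (fl j * G) N := by
      unfold S
      rw [sub_eq_iff_eq_add', Finset.sum_Ico_consecutive _ h0 h]
    rw [this]
    apply Finset.dvd_sum
    intro N hN
    have := (Finset.mem_Ico.1 hN).1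
    exact Dvd.dvd.mul_right ((pow_dvd_pow _ this).trans (fl_dvd j N)) _

lemma Cau_wseq (l : List ℕ) : Cau (wseq l) := by
  cases l with
  | nil => exact Cau_one
  | cons j l => exact Cau_S j _

lemma Cau_W {w : ℕ} {F : Sq} (hF : F ∈ W w) : Cau F := by
  unfold W at hF
  induction hF using Submodule.span_induction with
  | mem x hx =>
    obtain ⟨l, _, rfl⟩ := hx
    exact Cau_wseq l
  | zero => intro B B' _; simp
  | add x y _ _ hx hy =>
    intro B B' h
    have : (x + y) B' - (x + y) B = (x B' - x B) + (y B' - y B) := by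
      simp only [Pi.add_apply]; ring
    rw [this]
    exact dvd_add (hx B B' h) (hy B B' h)
  | smul c x _ hx =>
    intro B B' h
    have : (c • x) B' - (c • x) B = C c * (x B' - x B) := by
      simp only [Pi.smul_apply, PowerSeries.smul_eq_C_mul]; ring
    rw [this]
    exact Dvd.dvd.mul_left (hx B B' h) _

/-- the convolution of a null kernel with a Cauchy sequence -/
lemma conv_null {κ F : Sq} (hκ : ∀ d, (X : ℚ⟦X⟧) ^ d ∣ κ d) (hF : Cau F) :
    S κ * F - K κ F ∈ ZZ := by
  intro B
  have : (S κ * F - K κ F) B = ∑ d ∈ Ico 1 B, κ d * (F B - F (B - d)) := by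
    simp only [Pi.sub_apply, Pi.mul_apply, S, K]
    rw [Finset.sum_mul, ← Finset.sum_sub_distrib]
    apply Finset.sum_congr rfl
    intro d _; ring
  rw [this]
  apply Finset.dvd_sum
  intro d hd
  have hd' := Finset.mem_Ico.1 hd
  have h1 := hF (B - d) B (by omega)
  have h2 := mul_dvd_mul (hκ d) h1
  rw [← pow_add, show d + (B - d) = B by omega] at h2
  exact h2

end MPa7fa83
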