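import Pool.Agent.Lib.MP_a7fa83_ag.Words

/-!
# MP_a7fa83_ag : words with one letter `y`
-/

namespace MPa7fa83

open PowerSeries Finset

lemma S_two_mul (F : Sq) : S (2 * F) = 2 * S F := by
  rw [two_mul, two_mul, S_add]

lemma op_two_mul (l : List ℕ) (F : Sq) : op l (2 * F) = 2 * op l F := by
  rw [two_mul, two_mul, op_add]

lemma K_one_right (κ : Sq) : K κ 1 = S κ := by
  funext B; simp [K, S]

lemma Q0_mem {w w' j : ℕ} {F : Sq} (hF : F ∈ W w) (h : ∃ k, w + (j + 3) + 2 * k = w') :
    S (Q0 j F) ∈ W w' := by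
  have e : S (Q0 j F) = ∑ a ∈ range j, S (fl a * S (fl (j - 1 - a) * F)) := by
    unfold Q0
    induction (range j) using Finset.induction_on with
    | empty => simp [S_zero]
    | insert a s ha ih => rw [Finset.sum_insert ha, Finset.sum_insert ha, S_add, ih]
  rw [e]
  obtain ⟨k, hk⟩ := h
  refine Submodule.sum_mem _ (fun a ha => ?_)
  have ha' := Finset.mem_range.1 ha
  have h1 : S (fl (j - 1 - a) * F) ∈ W (w + (j - 1 - a + 2)) := W_S hF ⟨0, rfl⟩
  exact W_S h1 ⟨k, by omega⟩

/-- the defect in (C1) -/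
noncomputable def E1 (F : Sq) : Sq := K xs F + S (xs * F) - 2 * (F * S xs)

lemma E1_one : E1 1 = 0 := by
  unfold E1
  rw [K_one_right, mul_one, one_mul]; ring

lemma E1_step (j : ℕ) (F : Sq) :
    E1 (S (fl j * F)) = S (fl j * E1 F) + S (Q0 j F) - 2 * S (fl (j + 1) * F) := by
  unfold E1
  rw [K_S, K_xs_fl, S_mul (fl j * F) xs]
  have e1 : fl j * F * S xs = fl j * (F * S xs) := by ring
  have e2 : fl j * F * xs = fl (j + 1) * F := by rw [← xs_mul_fl]; ring
  have e3 : fl j * (K xs F + S (xs * F) - 2 * (F * S xs))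
      = fl j * K xs F + fl j * S (xs * F) - 2 * (fl j * (F * S xs)) := by ring
  rw [e1, e2, e3]
  simp only [S_add, S_sub, S_two_mul]
  ring

lemma E1_mem_word (l : List ℕ) : E1 (wseq l) ∈ W (wt l + 1) := by
  induction l with
  | nil => rw [wseq_nil, E1_one]; exact zero_mem _
  | cons j l ih =>
    rw [wseq_cons, E1_step, two_mul]
    refine sub_mem (add_mem ?_ ?_) (add_mem ?_ ?_)
    · exact W_S ih ⟨0, by simp only [wt_cons]; omega⟩
    · exact Q0_mem (wseq_mem ⟨0, rfl⟩) ⟨0, by simp only [wt_cons]; omega⟩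
    · exact W_S (wseq_mem ⟨0, rfl⟩) ⟨0, by simp only [wt_cons]; omega⟩
    · exact W_S (wseq_mem ⟨0, rfl⟩) ⟨0, by simp only [wt_cons]; omega⟩

lemma E1_add (F G : Sq) : E1 (F + G) = E1 F + E1 G := by
  unfold E1
  rw [K_add, mul_add, S_add]; ring

lemma E1_smul (c : ℚ) (F : Sq) : E1 (c • F) = c • E1 F := by
  unfold E1
  rw [K_smul, mul_smul_comm, S_smul, smul_mul_assoc, mul_smul_comm, ← smul_add, ← smul_sub]

lemma E1_zero : E1 0 = 0 := by
  have := E1_smul 0 0
  simpa using this

lemma E1_mem {w : ℕ} {F : Sq} (hF : F ∈ W w) : E1 F ∈ W (w + 1) := by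
  unfold W at hF
  induction hF using Submodule.span_induction with
  | mem x hx =>
    obtain ⟨l, ⟨k, hk⟩, rfl⟩ := hx
    exact W_mono (E1_mem_word l) ⟨k, by omega⟩
  | zero => rw [E1_zero]; exact zero_mem _
  | add x y _ _ hx hy => rw [E1_add]; exact add_mem hx hy
  | smul c x _ hx => rw [E1_smul]; exact Submodule.smul_mem _ _ hx

/-- the letter `y` (as `x + 1/2`) -/
noncomputable def yq : Sq := xs + (1 / 2 : ℚ) • (1 : Sq)

/-- `F * S y - S (y F)` -/
noncomputable def A (F : Sq) : Sq := F * S yq - S (yq * F)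

lemma half_mul (F : Sq) : (1 / 2 : ℚ) • (1 : Sq) * F = (1 / 2 : ℚ) • F := by
  rw [smul_mul_assoc, one_mul]

/-- (S'): the commutator with `y` stays in the span. -/
lemma A_mem {w : ℕ} {F : Sq} (hF : F ∈ W w) : A F ∈ V (w + 1) := by
  have h1 := conv_null psi_dvd (Cau_W hF)
  have h2 := E1_mem hF
  have e0 : K psi F = K xs F - (1 / 2 : ℚ) • S F := by
    have : K psi F = K xs F - (1 / 2 : ℚ) • K 1 F := by
      funext B
      simp only [K, psi, Pi.sub_apply, Pi.smul_apply, Pi.one_apply, sub_mul,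
        Finset.sum_sub_distrib, Finset.smul_sum, smul_mul_assoc]
    rw [this, K_const_one]
  have e1 : S psi = S xs - (1 / 2 : ℚ) • S 1 := by
    unfold psi; rw [S_sub, S_smul]
  have e2 : A F = -((S psi * F - K psi F) + E1 F) := by
    unfold A E1
    rw [e0, e1]
    unfold yq
    rw [S_add, S_smul, add_mul, half_mul, S_add, S_smul]
    simp only [sub_mul, mul_add, smul_mul_assoc, mul_smul_comm]
    rw [mul_comm (S 1) F]
    ring
  rw [e2]
  exact neg_mem (add_mem (ZZ_le_V h1) (W_le_V h2))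

/-- (*) -/
lemma A_star {a b : ℕ} {F G : Sq} (hF : F ∈ W a) (hG : G ∈ W b) :
    F * S (yq * G) - S (yq * (F * G)) ∈ V (a + b + 1) := by
  have h1 := A_mem (W_mul hF hG)
  have h2 := V_mul hF (A_mem hG)
  have : F * S (yq * G) - S (yq * (F * G)) = A (F * G) - F * A G := by
    unfold A; ring
  rw [this]
  exact sub_mem h1 h2

/-- `S(yG) + G/2` -/
noncomputable def Zf (G : Sq) : Sq := S (yq * G) + (1 / 2 : ℚ) • G

/-- the sum over the proper prefixes -/
noncomputable def Xl : List ℕ → Sq → Sq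
  | [], _ => 0
  | j :: l, G => S (fl j * Zf (wseq l * G)) + S (fl j * Xl l G)

lemma Xl_cons (j : ℕ) (l : List ℕ) (G : Sq) :
    Xl (j :: l) G = S (fl j * Zf (wseq l * G)) + S (fl j * Xl l G) := rfl

lemma Xl_spec (l : List ℕ) {b : ℕ} {G : Sq} (hG : G ∈ W b) :
    wseq l * S (yq * G) - S (yq * (wseq l * G)) - Xl l G ∈ W (wt l + b + 1) := by
  induction l with
  | nil =>
    rw [wseq_nil, one_mul, one_mul]
    unfold Xl
    rw [sub_self, sub_zero]
    exact zero_mem _
  | cons j l ih =>
    have key : wseq (j :: l) * S (yq * G) - S (yq * (wseq (j :: l) * G)) - Xl (j :: l) G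
        = S (fl j * (wseq l * S (yq * G) - S (yq * (wseq l * G)) - Xl l G))
          + S (fl (j + 1) * (wseq l * G)) := by
      rw [Xl_cons, wseq_cons, S_mul]
      unfold Zf
      have e1 : fl j * wseq l * S (yq * G) = fl j * (wseq l * S (yq * G)) := by ring
      have e2 : yq * G * S (fl j * wseq l) = yq * (S (fl j * wseq l) * G) := by ring
      have e3 : fl j * wseq l * (yq * G)
          = fl (j + 1) * (wseq l * G) + (1 / 2 : ℚ) • (fl j * (wseq l * G)) := by
        rw [← xs_mul_fl]
        unfold yq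
        rw [add_mul, half_mul]
        simp only [mul_add, mul_smul_comm]
        congr 1
        · ring
        · congr 1; ring
      have e4 : fl j * (wseq l * S (yq * G) - S (yq * (wseq l * G)) - Xl l G)
          = fl j * (wseq l * S (yq * G)) - fl j * S (yq * (wseq l * G)) - fl j * Xl l G := by
        ring
      rw [e1, e2, e3, e4, mul_add, mul_smul_comm]
      simp only [S_add, S_sub, S_smul]
      ring
    rw [key]
    refine add_mem ?_ ?_
    · exact W_S ih ⟨0, by simp only [wt_cons]; omega⟩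
    · exact W_S (W_mul (wseq_mem ⟨0, rfl⟩) hG) ⟨0, by simp only [wt_cons]; omega⟩

lemma Xl_mem (l : List ℕ) {b : ℕ} {G : Sq} (hG : G ∈ W b) : Xl l G ∈ V (wt l + b + 1) := by
  have h1 := Xl_spec l hG
  have h2 := A_star (wseq_mem (l := l) ⟨0, rfl⟩) hG
  have : Xl l G = (wseq l * S (yq * G) - S (yq * (wseq l * G)))
      - (wseq l * S (yq * G) - S (yq * (wseq l * G)) - Xl l G) := by ring
  rw [this]
  exact sub_mem h2 (W_le_V h1)

/-- comparison of `Xl` with its last term -/
lemma Xl_last (n : ℕ)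
    (ih : ∀ l : List ℕ, 0 < l.length → l.length ≤ n → ∀ b, ∀ G ∈ W b,
      op l (Zf G) ∈ V (wt l + b + 1)) :
    ∀ (l p : List ℕ), p.length + l.length = n + 1 → l ≠ [] → ∀ b, ∀ G ∈ W b,
      op p (Xl l G) - op (p ++ l) (Zf G) ∈ V (wt p + wt l + b + 1) := by
  intro l
  induction l with
  | nil => intro p _ h; exact absurd rfl h
  | cons j l ihl =>
    intro p hp _ b G hG
    rcases eq_or_ne l [] with hl | hl
    · subst hl
      have : op p (Xl [j] G) - op (p ++ [j]) (Zf G) = 0 := by
        rw [op_append]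
        unfold Xl
        have e : Xl [] G = 0 := rfl
        rw [e, mul_zero, S_zero, add_zero, wseq_nil, one_mul]
        simp [op]
      rw [this]
      exact zero_mem _
    · have e : op p (Xl (j :: l) G)
          = op (p ++ [j]) (Zf (wseq l * G)) + op (p ++ [j]) (Xl l G) := by
        rw [op_append, op_append, ← op_add]
        congr 1
      have hlen : 0 < l.length := List.length_pos_iff.2 hl
      have h1 := ih (p ++ [j]) (by simp) (by simp at hp ⊢; omega) _ _
        (W_mul (wseq_mem (l := l) ⟨0, rfl⟩) hG)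
      have h2 := ihl (p ++ [j]) (by simp at hp ⊢; omega) hl b G hG
      rw [List.append_assoc, List.singleton_append] at h2
      rw [e, add_sub_assoc]
      refine add_mem (V_mono h1 ⟨0, ?_⟩) (V_mono h2 ⟨0, ?_⟩) <;>
        simp only [wt_append, wt_cons, wt_nil] <;> omega

/-- (alpha) -/
lemma alpha (n : ℕ) : ∀ l : List ℕ, 0 < l.length → l.length ≤ n → ∀ b, ∀ G ∈ W b,
      op l (Zf G) ∈ V (wt l + b + 1) := by
  induction n with
  | zero => intro l h1 h2; omega
  | succ n ih =>
    intro l h1 h2 b G hG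
    rcases Nat.lt_or_ge n l.length with h3 | h3
    · have h4 := Xl_last n ih l [] (by simp; omega) (by
        intro h; subst h; simp at h1) b G hG
      have h5 := Xl_mem l hG
      have : op l (Zf G) = Xl l G - (op [] (Xl l G) - op ([] ++ l) (Zf G)) := by
        simp [op]
      rw [this]
      refine sub_mem h5 (V_mono h4 ⟨0, ?_⟩)
      simp
    · exact ih l h1 h3 b G hG

/-- (beta): multiplication by `Y = S y + 1/2` behind a nonempty word. -/
lemma beta_word (v : List ℕ) : ∀ l : List ℕ, l ≠ [] →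
    op l ((S yq + (1 / 2 : ℚ) • (1 : Sq)) * wseq v) ∈ V (wt l + wt v + 1) := by
  induction v with
  | nil =>
    intro l hl
    have h := alpha l.length l (List.length_pos_iff.2 hl) le_rfl 0 1 (one_mem_W ⟨0, rfl⟩)
    unfold Zf at h
    rw [mul_one] at h
    rw [wseq_nil, mul_one]
    exact V_mono h ⟨0, by simp⟩
  | cons j v ih =>
    intro l hl
    have e : (S yq + (1 / 2 : ℚ) • (1 : Sq)) * wseq (j :: v)
        = Zf (wseq (j :: v)) + S (fl j * ((S yq + (1 / 2 : ℚ) • (1 : Sq)) * wseq v))
          + S (fl (j + 1) * wseq v) := by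
      unfold Zf
      rw [wseq_cons, add_mul, half_mul, mul_comm (S yq), S_mul, add_mul, half_mul]
      have e1 : fl j * wseq v * yq
          = fl (j + 1) * wseq v + (1 / 2 : ℚ) • (fl j * wseq v) := by
        rw [← xs_mul_fl]
        unfold yq
        simp only [mul_add, mul_smul_comm, mul_one]
        congr 1
        ring
      have e2 : fl j * wseq v * S yq = fl j * (S yq * wseq v) := by ring
      rw [e1, e2, mul_add, mul_smul_comm]
      simp only [S_add, S_smul]
      ring
    rw [e, op_add, op_add]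
    have h1 := alpha l.length l (List.length_pos_iff.2 hl) le_rfl _ _
      (wseq_mem (l := j :: v) ⟨0, rfl⟩)
    have h2 := ih (l ++ [j]) (by simp)
    rw [op_append] at h2
    have h3 : op l (S (fl (j + 1) * wseq v)) ∈ W (wt l + wt (j :: v) + 1) :=
      W_op (W_S (wseq_mem (l := v) ⟨0, rfl⟩) ⟨0, rfl⟩) ⟨0, by simp only [wt_cons]; omega⟩
    refine add_mem (add_mem ?_ (V_mono h2 ⟨0, ?_⟩)) (W_le_V h3)
    · exact h1
    · simp only [wt_append, wt_cons, wt_nil]; omega

end MPa7fa83
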