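import Pool.Agent.Lib.MP_a7fa83_ag.Letters

/-!
# MP_a7fa83_ag : summation operators, words, null sequences
-/

namespace MPa7fa83

open PowerSeries Finset

/-- sequences of power series -/
abbrev Sq := ℕ → ℚ⟦X⟧

/-- summation operator -/
noncomputable def S (G : Sq) : Sq := fun B => ∑ N ∈ Ico 1 B, G N

/-- convolution operator -/
noncomputable def K (κ G : Sq) : Sq := fun B => ∑ d ∈ Ico 1 B, κ d * G (B - d)

lemma S_add (F G : Sq) : S (F + G) = S F + S G := by
  funext B; simp [S, Finset.sum_add_distrib]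

lemma S_sub (F G : Sq) : S (F - G) = S F - S G := by
  funext B; simp [S, Finset.sum_sub_distrib]

lemma S_smul (c : ℚ) (F : Sq) : S (c • F) = c • S F := by
  funext B; simp [S, Finset.smul_sum]

lemma S_zero : S 0 = 0 := by
  funext B; simp [S]

lemma K_add (κ F G : Sq) : K κ (F + G) = K κ F + K κ G := by
  funext B; simp [K, mul_add, Finset.sum_add_distrib]

lemma K_smul (κ : Sq) (c : ℚ) (F : Sq) : K κ (c • F) = c • K κ F := by
  funext B; simp [K, Finset.smul_sum]

/-- two sequences that agree at positive arguments have the same sums -/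
lemma S_congr {F G : Sq} (h : ∀ N, 1 ≤ N → F N = G N) : S F = S G := by
  funext B
  unfold S
  apply Finset.sum_congr rfl
  intro N hN
  exact h N (Finset.mem_Ico.1 hN).1

lemma S_succ (G : Sq) (B : ℕ) (hB : 1 ≤ B) : S G (B + 1) = S G B + G B := by
  unfold S
  rw [Finset.sum_Ico_succ_top hB]

/-- `S F * S G = S (F * S G) + S (G * S F) + S (F * G)`. -/
lemma S_mul (F G : Sq) : S F * S G = S (F * S G) + S (G * S F) + S (F * G) := by
  funext B
  induction B with
  | zero => simp [S]
  | succ B ih =>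
    rcases Nat.eq_zero_or_pos B with h0 | h0
    · subst h0; simp [S]
    · simp only [Pi.mul_apply, Pi.add_apply] at ih ⊢
      rw [S_succ _ _ h0, S_succ _ _ h0, S_succ _ _ h0, S_succ _ _ h0, S_succ _ _ h0]
      simp only [Pi.mul_apply]
      linear_combination ih

/-- reindexed form of the convolution -/
lemma K_apply (κ G : Sq) (N : ℕ) : K κ G N = ∑ M ∈ Ico 1 N, κ (N - M) * G M := by
  unfold K
  apply Finset.sum_nbij' (fun d => N - d) (fun M => N - M)
  · intro d hd; simp only [Finset.mem_Ico] at hd ⊢; omega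
  · intro d hd; simp only [Finset.mem_Ico] at hd ⊢; omega
  · intro d hd; simp only [Finset.mem_Ico] at hd; omega
  · intro d hd; simp only [Finset.mem_Ico] at hd; omega
  · intro d hd
    simp only [Finset.mem_Ico] at hd
    rw [show N - (N - d) = d by omega]

lemma K_const_one (G : Sq) : K 1 G = S G := by
  funext B
  rw [K_apply]
  simp [S]

/-- `K κ` commutes with `S`. -/
lemma K_S (κ G : Sq) : K κ (S G) = S (K κ G) := by
  funext B
  induction B with
  | zero => simp [S, K]
  | succ B ih =>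
    rcases Nat.eq_zero_or_pos B with h0 | h0
    · subst h0; simp [S, K]
    · rw [S_succ _ _ h0, ← ih]
      unfold K
      rw [Finset.sum_Ico_succ_top h0]
      have hz : S G (B + 1 - B) = 0 := by
        rw [show B + 1 - B = 1 by omega]; simp [S]
      rw [hz, mul_zero, add_zero, ← Finset.sum_add_distrib]
      apply Finset.sum_congr rfl
      intro d hd
      have hd' := Finset.mem_Ico.1 hd
      rw [show B + 1 - d = (B - d) + 1 by omega, S_succ _ _ (by omega : 1 ≤ B - d), mul_add]

/-! ## the operator identities -/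

/-- `x^2 - 1/4` as a letter -/
lemma fl_zero (N : ℕ) : fl 0 N = xs N ^ 2 - hf ^ 2 := by simp [fl]

/-- double letter part of (I0) -/
noncomputable def Q0 (j : ℕ) (F : Sq) : Sq := ∑ a ∈ range j, fl a * S (fl (j - 1 - a) * F)

/-- the derivative of the letters `fl a` -/
noncomputable def dfs (j : ℕ) : Sq := ((j : ℚ) + 2) • fl (j + 1) - ((j : ℚ) / 4) • fl (j - 1)

lemma hf_sq : hf ^ 2 = C (1/4 : ℚ) := by
  unfold hf
  rw [← map_pow]; norm_num

lemma dfs_apply (j N : ℕ) : dfs j N = dfl j N := by
  unfold dfs dfl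
  simp only [Pi.sub_apply, Pi.smul_apply, fl, PowerSeries.smul_eq_C_mul]
  have h4 : C ((j : ℚ) / 4) = (j : ℚ⟦X⟧) * hf ^ 2 := by
    rw [hf_sq, div_eq_mul_one_div, map_mul, map_natCast]
  have h5 : C ((j : ℚ) + 2) = (j : ℚ⟦X⟧) + 2 := by
    rw [map_add, map_natCast, map_ofNat]
  rw [h4, h5]
  rcases j with _ | j
  · simp; ring
  · simp only [Nat.add_sub_cancel]
    push_cast
    ring

/-- double letter part of (I1) -/
noncomputable def Q1 (j : ℕ) (F : Sq) : Sq := ∑ a ∈ range j, dfs a * S (fl (j - 1 - a) * F)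

/-- (I0) -/
lemma K_xs_fl (j : ℕ) (F : Sq) : K xs (fl j * F) =
    fl j * K xs F + xs * S (fl j * F) + fl j * S (xs * F) + Q0 j F := by
  funext N
  simp only [Pi.add_apply, Pi.mul_apply, Q0, Finset.sum_apply]
  rw [K_apply, K_apply]
  unfold S
  simp only [Pi.mul_apply, Finset.mul_sum]
  rw [Finset.sum_comm, ← Finset.sum_add_distrib, ← Finset.sum_add_distrib,
    ← Finset.sum_add_distrib]
  apply Finset.sum_congr rfl
  intro M hM
  have hM' := Finset.mem_Ico.1 hM
  have h := fl_rel j N M hM'.1 hM'.2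
  have hQ : ∑ a ∈ range j, fl a N * (fl (j - 1 - a) M * F M)
      = (xs N ^ 2 - hf ^ 2) * (xs M ^ 2 - hf ^ 2) * gs j N M * F M := by
    unfold gs fl
    rw [Finset.mul_sum, Finset.sum_mul]
    apply Finset.sum_congr rfl
    intro a _
    ring
  rw [hQ]
  linear_combination (F M) * h

/-- (I1) -/
lemma K_fl0_fl (j : ℕ) (F : Sq) : K (fl 0) (fl j * F) =
    fl j * K (fl 0) F + dfs j * K xs F + fl 0 * S (fl j * F) + dfs j * S (xs * F) + Q1 j F := by
  funext N
  simp only [Pi.add_apply, Pi.mul_apply, Q1, Finset.sum_apply]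
  rw [K_apply, K_apply, K_apply]
  unfold S
  simp only [Pi.mul_apply, Finset.mul_sum]
  rw [Finset.sum_comm, ← Finset.sum_add_distrib, ← Finset.sum_add_distrib,
    ← Finset.sum_add_distrib, ← Finset.sum_add_distrib]
  apply Finset.sum_congr rfl
  intro M hM
  have hM' := Finset.mem_Ico.1 hM
  have h := fl_rel2 j N M hM'.1 hM'.2
  have hQ : ∑ a ∈ range j, dfs a N * (fl (j - 1 - a) M * F M)
      = (xs M ^ 2 - hf ^ 2) * (2 * xs N * (xs N ^ 2 - hf ^ 2) * gs j N M
        + (xs N ^ 2 - hf ^ 2) ^ 2 * gs' j N M) * F M := by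
    unfold gs gs'
    rw [Finset.mul_sum, Finset.mul_sum, ← Finset.sum_add_distrib, Finset.mul_sum,
      Finset.sum_mul]
    apply Finset.sum_congr rfl
    intro a _
    rw [dfs_apply]
    unfold dfl fl
    ring
  rw [hQ, fl_zero, fl_zero, dfs_apply]
  linear_combination (F M) * h

end MPa7fa83
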